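import Pool.Agent.W5h84.Rig.Wreath

/-!
# Normal subgroups and automorphisms of the restricted wreath product
-/

namespace Pool.Agent.W5h84.Rig

namespace Wr

variable {S G X : Type} [Group S] [Group G] [MulAction G X]

lemma exists_comm (hc : Centerless S) (c : Wr S G X) (hg : c.g = 1) (hne : c ≠ 1) :
    ∃ (y : X) (t u : S), u ≠ 1 ∧ c * dl y t * c⁻¹ * (dl y t)⁻¹ = dl y u := by
  have : ∃ y, c.b y ≠ 1 := by
    by_contra h
    push Not at h
    exact hne (ext' h hg)
  obtain ⟨y, hy⟩ := this
  have : ∃ t, c.b y * t ≠ t * c.b y := by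
    by_contra h
    push Not at h
    exact hy (hc _ h)
  obtain ⟨t, ht⟩ := this
  refine ⟨y, t, c.b y * t * (c.b y)⁻¹ * t⁻¹, ?_, ?_⟩
  · intro h
    apply ht
    rw [mul_inv_eq_one] at h
    exact mul_inv_eq_iff_eq_mul.mp h
  · rw [conj_dl, hg, one_smul, ← map_inv, ← map_mul]

/-- a nontrivial normal subgroup contains the base group -/
theorem normal_base [IsSimpleGroup S] (hc : Centerless S) (hf : Faithful' G X)
    [MulAction.IsPretransitive G X] (N : Subgroup (Wr S G X)) (hN : N.Normal)
    (hne : ∃ w ∈ N, w ≠ 1) : ∀ x s, dl x s ∈ N := by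
  obtain ⟨w, hw, hw1⟩ := hne
  have h1 : ∃ x s, w * dl x s * w⁻¹ ≠ dl x s := by
    by_contra h
    push Not at h
    exact hw1 (eq_one_of_comm hc hf w h)
  obtain ⟨x, s, hxs⟩ := h1
  have hcN : w * dl x s * w⁻¹ * (dl x s)⁻¹ ∈ N := by
    have h2 : dl x s * w⁻¹ * (dl x s)⁻¹ ∈ N := hN.conj_mem _ (N.inv_mem hw) _
    have h3 := N.mul_mem hw h2
    simpa [mul_assoc] using h3
  have hcg : (w * dl x s * w⁻¹ * (dl x s)⁻¹).g = 1 := by simp
  have hcne : w * dl x s * w⁻¹ * (dl x s)⁻¹ ≠ 1 := by
    intro h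
    exact hxs (mul_inv_eq_one.mp h)
  obtain ⟨y, t, u, hu, hcu⟩ := exists_comm hc _ hcg hcne
  have huN : dl y u ∈ N := by
    rw [← hcu]
    generalize w * dl x s * w⁻¹ * (dl x s)⁻¹ = c at hcN ⊢
    have h2 : dl y t * c⁻¹ * (dl y t)⁻¹ ∈ N := hN.conj_mem _ (N.inv_mem hcN) _
    have h3 := N.mul_mem hcN h2
    simpa [mul_assoc] using h3
  have htop : N.comap (dl y) = ⊤ := by
    rcases IsSimpleGroup.eq_bot_or_eq_top_of_normal (N.comap (dl y)) (hN.comap (dl y)) with h | h
    · exfalso
      have : u ∈ N.comap (dl y) := huN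
      rw [h, Subgroup.mem_bot] at this
      exact hu this
    · exact h
  intro z s
  obtain ⟨g, rfl⟩ := MulAction.exists_smul_eq G y z
  have h4 : dl y s ∈ N := by
    have : s ∈ N.comap (dl y) := by rw [htop]; trivial
    exact this
  have h5 := hN.conj_mem _ h4 (inr g)
  rw [conj_dl] at h5
  simpa using h5

section Aut

variable [IsSimpleGroup S] [MulAction.IsPretransitive G X]

lemma map_base (hc : Centerless S) (hf : Faithful' G X) [Nonempty X] (α : MulAut (Wr S G X))
    (w : Wr S G X) (hw : w.g = 1) : (α w).g = 1 := by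
  have h1 : ∀ x s, dl x s ∈ (proj : Wr S G X →* G).ker.comap α.toMonoidHom := by
    apply normal_base hc hf
    · exact (MonoidHom.normal_ker _).comap _
    · obtain ⟨s, hs⟩ := exists_ne (1 : S)
      obtain ⟨x⟩ := (inferInstance : Nonempty X)
      refine ⟨α.symm (dl x s), ?_, ?_⟩
      · rw [Subgroup.mem_comap, MonoidHom.mem_ker]
        simp
      · intro h
        have : dl x s = α 1 := by rw [← h]; simp
        rw [map_one] at this
        apply hs
        apply dl_injective (G := G) x
        rw [this, map_one]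
  have := base_mem h1 w hw
  rw [Subgroup.mem_comap, MonoidHom.mem_ker] at this
  exact this

lemma exists_factor' (hc : Centerless S) (hf : Faithful' G X) (α : MulAut (Wr S G X)) (x : X) :
    ∃ y, ∀ s, ∃ t, α (dl x s) = dl y t := by
  have : Nonempty X := ⟨x⟩
  obtain ⟨s0, hs0⟩ := exists_ne (1 : S)
  have hcne : α (dl x s0) ≠ 1 := by
    intro h
    have : dl x s0 = α.symm 1 := by rw [← h]; simp
    rw [map_one] at this
    apply hs0
    apply dl_injective (G := G) x
    rw [this, map_one]
  have hcg : (α (dl x s0)).g = 1 := map_base hc hf α _ rfl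
  obtain ⟨y, t, u, hu, hcu⟩ := exists_comm hc _ hcg hcne
  refine ⟨y, ?_⟩
  have hnorm : (((dl y : S →* Wr S G X).range.comap α.toMonoidHom).comap (dl x)).Normal := by
    refine ⟨fun n hn g => ?_⟩
    rw [Subgroup.mem_comap, Subgroup.mem_comap, MonoidHom.mem_range] at hn ⊢
    obtain ⟨t, ht⟩ := hn
    have hg1 : (α (dl x g)).g = 1 := map_base hc hf α _ rfl
    have h2 : α (dl x (g * n * g⁻¹)) = α (dl x g) * dl y t * (α (dl x g))⁻¹ := by
      rw [ht]; simp
    rw [conj_dl, hg1, one_smul] at h2
    exact ⟨_, h2.symm⟩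
  have htop : ((dl y : S →* Wr S G X).range.comap α.toMonoidHom).comap (dl x) = ⊤ := by
    rcases IsSimpleGroup.eq_bot_or_eq_top_of_normal _ hnorm with h | h
    · exfalso
      set z := α.symm (dl y t) with hz
      have hzg : z.g = 1 := map_base hc hf α.symm _ rfl
      have hz2 : α z = dl y t := by simp [hz]
      have h3 : α (dl x (s0 * (z.b x * s0⁻¹ * (z.b x)⁻¹))) = dl y u := by
        rw [← hcu, ← hz2, map_mul]
        have : dl x (z.b x * s0⁻¹ * (z.b x)⁻¹) = z * dl x s0⁻¹ * z⁻¹ := by
          rw [conj_dl, hzg, one_smul]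
        rw [this]
        simp [mul_assoc]
      have h4 : s0 * (z.b x * s0⁻¹ * (z.b x)⁻¹) ∈
          ((dl y : S →* Wr S G X).range.comap α.toMonoidHom).comap (dl x) := by
        rw [Subgroup.mem_comap, Subgroup.mem_comap, MonoidHom.mem_range]
        exact ⟨u, h3.symm⟩
      rw [h, Subgroup.mem_bot] at h4
      rw [h4, map_one, map_one] at h3
      apply hu
      apply dl_injective (G := G) y
      rw [← h3, map_one]
    · exact h
  intro s
  have : s ∈ ((dl y : S →* Wr S G X).range.comap α.toMonoidHom).comap (dl x) := by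
    rw [htop]; trivial
  rw [Subgroup.mem_comap, Subgroup.mem_comap, MonoidHom.mem_range] at this
  obtain ⟨t, ht⟩ := this
  exact ⟨t, ht.symm⟩

lemma exists_factor [Finite S] (hc : Centerless S) (hf : Faithful' G X) (α : MulAut (Wr S G X))
    (x : X) : ∃ (y : X) (φ : MulAut S), ∀ s, α (dl x s) = dl y (φ s) := by
  obtain ⟨y, hy⟩ := exists_factor' hc hf α x
  choose f hf' using hy
  have hmul : ∀ s t, f (s * t) = f s * f t := by
    intro s t
    apply dl_injective (G := G) y
    rw [← hf', map_mul, map_mul, map_mul, hf', hf']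
  have hinj : Function.Injective f := by
    intro s t h
    apply dl_injective (G := G) x
    apply α.injective
    rw [hf', hf', h]
  have hbij : Function.Bijective f := ⟨hinj, Finite.surjective_of_injective hinj⟩
  exact ⟨y, MulEquiv.ofBijective (MonoidHom.mk' f hmul) hbij, hf'⟩

end Aut

end Wr

end Pool.Agent.W5h84.Rig
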