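import Pool.Agent.W5h84.Rig.Tower

/-!
# Rigidification: every finitely generated one-ended group with an involution is a quotient of a
finitely generated group with finite outer automorphism group and the same finite-index normal
subgroups, whose characteristic finite-index subgroups come from invariant ones
-/

set_option linter.unusedSectionVars false

namespace Pool.Agent.W5h84.Rig

open Wr

/-- the number of normal subgroups of (finite) index at most `n` -/
noncomputable def NCount (Γ : Type) [Group Γ] (n : ℕ) : ℕ :=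
  Nat.card {N : Subgroup Γ // N.Normal ∧ N.index ≠ 0 ∧ N.index ≤ n}

/-- the number of characteristic subgroups of (finite) index at most `n` -/
noncomputable def CCount (Γ : Type) [Group Γ] (n : ℕ) : ℕ :=
  Nat.card {N : Subgroup Γ // N.Characteristic ∧ N.index ≠ 0 ∧ N.index ≤ n}

/-- the number of `τ`-invariant normal subgroups of (finite) index at most `n` -/
noncomputable def TCount (Q : Type) [Group Q] (τ : MulAut Q) (n : ℕ) : ℕ :=
  Nat.card {N : Subgroup Q // N.Normal ∧ N.map τ.toMonoidHom = N ∧ N.index ≠ 0 ∧ N.index ≤ n}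

section finiteness

/-- a finitely generated group has finitely many normal subgroups of index at most `n` -/
theorem finite_normal (Γ : Type) [Group Γ] [Group.FG Γ] (n : ℕ) :
    Finite {N : Subgroup Γ // N.Normal ∧ N.index ≠ 0 ∧ N.index ≤ n} := by
  classical
  obtain ⟨T, hT, hTfin⟩ := Group.fg_iff.mp (inferInstance : Group.FG Γ)
  have hhom : Finite (Γ →* Equiv.Perm (Fin n)) := by
    have hTf : Finite T := hTfin
    have : Function.Injective (fun (f : Γ →* Equiv.Perm (Fin n)) => fun t : T => f t) := by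
      intro f g h
      apply MonoidHom.eq_of_eqOn_dense hT
      intro t ht
      exact congrFun h ⟨t, ht⟩
    exact Finite.of_injective _ this
  have : ∀ N : {N : Subgroup Γ // N.Normal ∧ N.index ≠ 0 ∧ N.index ≤ n},
      ∃ f : Γ →* Equiv.Perm (Fin n), f.ker = N.1 := by
    rintro ⟨N, hN, hN0, hNn⟩
    have hf : Finite (Γ ⧸ N) := by
      by_contra h
      rw [not_finite_iff_infinite] at h
      exact hN0 (by rw [Subgroup.index, Nat.card_eq_zero_of_infinite])
    have hcard : Nat.card (Γ ⧸ N) ≤ n := hNn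
    obtain ⟨e⟩ : Nonempty (Γ ⧸ N ↪ Fin n) := by
      have := Fintype.ofFinite (Γ ⧸ N)
      rw [Nat.card_eq_fintype_card] at hcard
      exact Function.Embedding.nonempty_of_card_le (by simpa using hcard)
    let F : Γ →* Equiv.Perm (Fin n) :=
      (Equiv.Perm.viaEmbeddingHom e).comp ((MulAction.toPermHom (Γ ⧸ N) (Γ ⧸ N)).comp
        (QuotientGroup.mk' N))
    refine ⟨F, ?_⟩
    ext x
    rw [MonoidHom.mem_ker]
    constructor
    · intro h
      have h1 : MulAction.toPermHom (Γ ⧸ N) (Γ ⧸ N) (QuotientGroup.mk' N x) = 1 := by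
        apply Equiv.Perm.viaEmbeddingHom_injective e
        rw [map_one]; exact h
      have h2 := congrArg (fun σ : Equiv.Perm (Γ ⧸ N) => σ 1) h1
      simp at h2
      exact h2
    · intro h
      have h1 : QuotientGroup.mk' N x = 1 := by simpa using h
      change (Equiv.Perm.viaEmbeddingHom e) ((MulAction.toPermHom (Γ ⧸ N) (Γ ⧸ N))
        (QuotientGroup.mk' N x)) = 1
      rw [h1, map_one, map_one]
  choose f hf using this
  refine Finite.of_injective f ?_
  intro N M h
  apply Subtype.ext
  rw [← hf N, ← hf M, h]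

end finiteness

namespace Wr

variable {S G X : Type} [Group S] [Group G] [MulAction G X]

/-- finite generation -/
theorem fg [Group.FG G] [Finite S] [MulAction.IsPretransitive G X] [hne : Nonempty X] :
    Group.FG (Wr S G X) := by
  obtain ⟨T, hT, hTfin⟩ := Group.fg_iff.mp (inferInstance : Group.FG G)
  obtain ⟨x0⟩ := hne
  refine Group.fg_iff.mpr ⟨inr '' T ∪ Set.range (dl x0), ?_, ?_⟩
  · set H := Subgroup.closure (inr '' T ∪ Set.range (dl x0 : S →* Wr S G X)) with hH
    have h1 : ∀ g : G, (inr g : Wr S G X) ∈ H := by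
      intro g
      have : (Subgroup.closure T).map (inr : G →* Wr S G X) ≤ H := by
        rw [MonoidHom.map_closure]
        exact Subgroup.closure_mono Set.subset_union_left
      rw [hT] at this
      exact this ⟨g, trivial, rfl⟩
    have h2 : ∀ (x : X) (s : S), (dl x s : Wr S G X) ∈ H := by
      intro x s
      obtain ⟨g, rfl⟩ := MulAction.exists_smul_eq G x0 x
      have h3 : (dl x0 s : Wr S G X) ∈ H :=
        Subgroup.subset_closure (Set.mem_union_right _ ⟨s, rfl⟩)
      have h4 := H.mul_mem (H.mul_mem (h1 g) h3) (H.inv_mem (h1 g))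
      rw [conj_dl] at h4
      simpa using h4
    rw [eq_top_iff]
    intro w _
    rw [eq_inl_mul_inr w]
    exact H.mul_mem (base_mem h2 _ rfl) (h1 w.g)
  · exact (hTfin.image _).union (Set.finite_range _)

variable [IsSimpleGroup S] [MulAction.IsPretransitive G X] [Good S G X] [Infinite X]

instance : Infinite (Wr S G X) := by
  obtain ⟨s, hs⟩ := exists_ne (1 : S)
  exact Infinite.of_injective (fun x : X => (dl x s : Wr S G X))
    (fun x y h => (dl_eq_dl hs h).1)

lemma ker_le (N : Subgroup (Wr S G X)) (hN : N.Normal) (hN0 : N.index ≠ 0) :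
    (proj : Wr S G X →* G).ker ≤ N := by
  have h1 : ∃ w ∈ N, w ≠ 1 := by
    by_contra h
    push Not at h
    have : N = ⊥ := by
      rw [eq_bot_iff]
      intro w hw
      exact h w hw
    rw [this, Subgroup.index_bot] at hN0
    exact hN0 Nat.card_eq_zero_of_infinite
  have h2 := normal_base (Good.cless G X) (Good.faith S) N hN h1
  intro w hw
  exact base_mem h2 w hw

lemma comap_map (N : Subgroup (Wr S G X)) (hN : N.Normal) (hN0 : N.index ≠ 0) :
    (N.map proj).comap proj = N := Subgroup.comap_map_eq_self (ker_le N hN hN0)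

lemma index_map (N : Subgroup (Wr S G X)) (hN : N.Normal) (hN0 : N.index ≠ 0) :
    (N.map proj).index = N.index := by
  rw [← Subgroup.index_comap_of_surjective (N.map proj) (proj_surjective (S := S) (X := X)),
    comap_map N hN hN0]

/-- finite-index normal subgroups correspond -/
theorem NCount_eq (n : ℕ) : NCount (Wr S G X) n = NCount G n := by
  refine Nat.card_congr ?_
  refine
    { toFun := fun N => ⟨N.1.map proj, N.2.1.map _ proj_surjective, ?_, ?_⟩
      invFun := fun K => ⟨K.1.comap proj, K.2.1.comap _, ?_, ?_⟩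
      left_inv := ?_
      right_inv := ?_ }
  · rw [index_map N.1 N.2.1 N.2.2.1]; exact N.2.2.1
  · rw [index_map N.1 N.2.1 N.2.2.1]; exact N.2.2.2
  · rw [Subgroup.index_comap_of_surjective _ proj_surjective]; exact K.2.2.1
  · rw [Subgroup.index_comap_of_surjective _ proj_surjective]; exact K.2.2.2
  · intro N
    exact Subtype.ext (comap_map N.1 N.2.1 N.2.2.1)
  · intro K
    exact Subtype.ext (Subgroup.map_comap_eq_self_of_surjective proj_surjective _)

end Wr

section lift

variable {S Q : Type} [Group S] [Group Q] {P : Finset Q}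

/-- the lift of an automorphism of `Q` to `S wr Q` -/
def lift1 (τ : MulAut Q) : MulAut (Wr S Q Q) :=
  Wr.lift τ τ.toEquiv (fun g x => by simp)

/-- the lift of an automorphism of `Q` to the set `Om` -/
def liftOm (τ : MulAut Q) (hP : ∀ p, p ∈ P ↔ τ p ∈ P) : Equiv.Perm (Om S Q P) where
  toFun o := ⟨τ o.q, fun p => o.y ⟨τ.symm p, by rw [hP]; simp⟩⟩
  invFun o := ⟨τ.symm o.q, fun p => o.y ⟨τ p, by rw [← hP]; simp⟩⟩
  left_inv o := by
    refine Om.ext ?_ (funext fun p => ?_) <;> simp
  right_inv o := by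
    refine Om.ext ?_ (funext fun p => ?_) <;> simp

/-- the lift of an automorphism of `Q` to the rigid group -/
def lift2 (τ : MulAut Q) (hP : ∀ p, p ∈ P ↔ τ p ∈ P) :
    MulAut (Wr S (Wr S Q Q) (Om S Q P)) :=
  Wr.lift (lift1 τ) (liftOm τ hP) (fun g x => by
    refine Om.ext ?_ (funext fun p => ?_)
    · change τ (g.g * x.q) = τ g.g * τ x.q
      simp
    · change g.b (g.g * x.q * τ.symm p) * x.y ⟨τ.symm p, _⟩ =
        g.b (τ.symm (τ g.g * τ x.q * p)) * x.y ⟨τ.symm p, _⟩
      simp)

end lift

/-- **Rigidification.** -/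
theorem rigidify (S : Type) [Group S] [CL S] [IsSimpleGroup S] [Finite S]
    (Q : Type) [Group Q] [Group.FG Q] [Infinite Q] (hend : OneEnded Q)
    (τ : MulAut Q) (hτ : ∀ q, τ (τ q) = q) :
    ∃ (Γ : Type) (_ : Group Γ), Group.FG Γ ∧ Finite (MulAut Γ ⧸ (MulAut.conj (G := Γ)).range) ∧
      (∀ n, NCount Γ n = NCount Q n) ∧ (∀ n, CCount Γ n ≤ TCount Q τ n) := by
  classical
  obtain ⟨T, hT, hTfin⟩ := Group.fg_iff.mp (inferInstance : Group.FG Q)
  set P : Finset Q := insert 1 (hTfin.toFinset ∪ hTfin.toFinset.image τ) with hPdef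
  have hP1 : (1 : Q) ∈ P := Finset.mem_insert_self _ _
  have hPgen : Subgroup.closure (P : Set Q) = ⊤ := by
    rw [eq_top_iff, ← hT]
    apply Subgroup.closure_mono
    intro t ht
    simp [hPdef, ht]
  have hP' : ∀ p ∈ P, τ p ∈ P := by
    intro p hp
    rw [hPdef, Finset.mem_insert, Finset.mem_union, Finset.mem_image] at hp ⊢
    rcases hp with rfl | hp | ⟨a, ha, rfl⟩
    · left; simp
    · right; right; exact ⟨p, hp, rfl⟩
    · right; left; rw [hτ]; exact ha
  have hP : ∀ p, p ∈ P ↔ τ p ∈ P := fun p => ⟨hP' p, fun h => by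
    have := hP' _ h
    rwa [hτ] at this⟩
  have : Fact ((1 : Q) ∈ P) := ⟨hP1⟩
  refine ⟨Wr S (Wr S Q Q) (Om S Q P), inferInstance, ?_, out_finite hPgen hend, ?_, ?_⟩
  · have : Group.FG (Wr S Q Q) := Wr.fg
    exact Wr.fg
  · intro n
    rw [Wr.NCount_eq, Wr.NCount_eq]
  · intro n
    have hfin : Finite {N : Subgroup Q // N.Normal ∧ N.map τ.toMonoidHom = N ∧
        N.index ≠ 0 ∧ N.index ≤ n} := by
      have := finite_normal Q n
      refine Finite.of_injective (fun N : {N : Subgroup Q // N.Normal ∧
        N.map τ.toMonoidHom = N ∧ N.index ≠ 0 ∧ N.index ≤ n} =>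
        (⟨N.1, N.2.1, N.2.2.2.1, N.2.2.2.2⟩ :
          {N : Subgroup Q // N.Normal ∧ N.index ≠ 0 ∧ N.index ≤ n})) ?_
      intro N M h
      simp only [Subtype.mk.injEq] at h
      exact Subtype.ext h
    have hch : ∀ N : Subgroup (Wr S (Wr S Q Q) (Om S Q P)), N.Characteristic →
        N.map (lift2 τ hP).toMonoidHom = N := by
      intro N hN
      exact Subgroup.characteristic_iff_map_eq.mp hN (lift2 τ hP)
    have hnor : ∀ N : Subgroup (Wr S (Wr S Q Q) (Om S Q P)), N.Characteristic → N.Normal :=
      fun N hN => inferInstance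
    refine Nat.card_le_card_of_injective (fun N : {N : Subgroup (Wr S (Wr S Q Q) (Om S Q P)) //
      N.Characteristic ∧ N.index ≠ 0 ∧ N.index ≤ n} =>
      (⟨(N.1.map proj).map proj, ((hnor _ N.2.1).map _ proj_surjective).map _ proj_surjective,
        ?_, ?_, ?_⟩ : {N : Subgroup Q // N.Normal ∧ N.map τ.toMonoidHom = N ∧
        N.index ≠ 0 ∧ N.index ≤ n})) ?_
    · have h := hch N.1 N.2.1
      rw [Subgroup.map_map, Subgroup.map_map]
      conv_rhs => rw [← h]
      rw [Subgroup.map_map, Subgroup.map_map]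
      rfl
    · have h1 := Wr.index_map N.1 (hnor _ N.2.1) N.2.2.1
      rw [Wr.index_map _ ((hnor _ N.2.1).map _ proj_surjective) (by rw [h1]; exact N.2.2.1), h1]
      exact N.2.2.1
    · have h1 := Wr.index_map N.1 (hnor _ N.2.1) N.2.2.1
      rw [Wr.index_map _ ((hnor _ N.2.1).map _ proj_surjective) (by rw [h1]; exact N.2.2.1), h1]
      exact N.2.2.2
    · intro N M hNM
      apply Subtype.ext
      have h1 := Wr.index_map N.1 (hnor _ N.2.1) N.2.2.1
      have h2 := Wr.index_map M.1 (hnor _ M.2.1) M.2.2.1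
      have h3 := congrArg Subtype.val hNM
      have h4 : (N.1.map proj) = (M.1.map proj) := by
        rw [← Wr.comap_map (N.1.map proj) ((hnor _ N.2.1).map _ proj_surjective)
          (by rw [h1]; exact N.2.2.1), ← Wr.comap_map (M.1.map proj)
          ((hnor _ M.2.1).map _ proj_surjective) (by rw [h2]; exact M.2.2.1)]
        exact congrArg _ h3
      rw [← Wr.comap_map N.1 (hnor _ N.2.1) N.2.2.1, ← Wr.comap_map M.1 (hnor _ M.2.1) M.2.2.1,
        h4]

/-- The direct product of two infinite finitely generated groups is one-ended. -/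
theorem oneEnded_prod (A B : Type) [Group A] [Group B] [Group.FG A] [Group.FG B] [Infinite A]
    [Infinite B] : OneEnded (A × B) := by
  classical
  intro C _ f hf
  obtain ⟨T, hT, hTfin⟩ := Group.fg_iff.mp (inferInstance : Group.FG A)
  obtain ⟨U, hU, hUfin⟩ := Group.fg_iff.mp (inferInstance : Group.FG B)
  have hE2 : ∃ E2 : Set B, E2.Finite ∧ ∀ b ∉ E2, ∀ a a' : A, f (a, b) = f (a', b) := by
    refine ⟨⋃ t ∈ T, Prod.snd '' {x : A × B | f ((t, 1) * x) ≠ f x}, ?_, ?_⟩
    · exact Set.Finite.biUnion hTfin (fun t _ => (hf (t, 1)).image _)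
    · intro b hb
      have h1 : ∀ t ∈ T, ∀ a, f (t * a, b) = f (a, b) := by
        intro t ht a
        by_contra hne
        apply hb
        refine Set.mem_biUnion ht ⟨(a, b), ?_, rfl⟩
        simpa using hne
      have h2 : ∀ g : A, ∀ a, f (g * a, b) = f (a, b) := by
        intro g
        have hg : g ∈ Subgroup.closure T := by rw [hT]; trivial
        induction hg using Subgroup.closure_induction with
        | mem x hx => exact h1 x hx
        | one => simp
        | mul x y _ _ hx hy => intro a; rw [mul_assoc, hx, hy]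
        | inv x _ hx => intro a; have := hx (x⁻¹ * a); rw [← this]; simp
      intro a a'
      have := h2 (a * a'⁻¹) a'
      simpa using this
  have hE1 : ∃ E1 : Set A, E1.Finite ∧ ∀ a ∉ E1, ∀ b b' : B, f (a, b) = f (a, b') := by
    refine ⟨⋃ t ∈ U, Prod.fst '' {x : A × B | f ((1, t) * x) ≠ f x}, ?_, ?_⟩
    · exact Set.Finite.biUnion hUfin (fun t _ => (hf (1, t)).image _)
    · intro a ha
      have h1 : ∀ t ∈ U, ∀ b, f (a, t * b) = f (a, b) := by
        intro t ht b
        by_contra hne
        apply ha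
        refine Set.mem_biUnion ht ⟨(a, b), ?_, rfl⟩
        simpa using hne
      have h2 : ∀ g : B, ∀ b, f (a, g * b) = f (a, b) := by
        intro g
        have hg : g ∈ Subgroup.closure U := by rw [hU]; trivial
        induction hg using Subgroup.closure_induction with
        | mem x hx => exact h1 x hx
        | one => simp
        | mul x y _ _ hx hy => intro a; rw [mul_assoc, hx, hy]
        | inv x _ hx => intro a; have := hx (x⁻¹ * a); rw [← this]; simp
      intro b b'
      have := h2 (b * b'⁻¹) b'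
      simpa using this
  obtain ⟨E2, hE2f, hE2⟩ := hE2
  obtain ⟨E1, hE1f, hE1⟩ := hE1
  obtain ⟨a0, ha0⟩ := hE1f.exists_notMem
  obtain ⟨b0, hb0⟩ := hE2f.exists_notMem
  refine ⟨f (a0, b0), (hE1f.prod hE2f).subset ?_⟩
  rintro ⟨a, b⟩ hab
  refine ⟨?_, ?_⟩
  · by_contra ha
    apply hab
    rw [hE1 a ha b b0, hE2 b0 hb0 a a0]
  · by_contra hb
    apply hab
    rw [hE2 b hb a a0, hE1 a0 ha0 b b0]

end Pool.Agent.W5h84.Rig
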