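import Pool.Agent.W5h84.Rig.Auto

/-!
# The data attached to an automorphism of a restricted wreath product
-/

set_option linter.unusedSectionVars false

namespace Pool.Agent.W5h84.Rig

/-- Standing assumptions: `S` centreless and the action of `G` on `X` faithful. -/
class Good (S G X : Type) [Group S] [Group G] [MulAction G X] : Prop where
  cless : Wr.Centerless S
  faith : Wr.Faithful' G X

namespace Wr

variable {S G X : Type} [Group S] [Group G] [MulAction G X] [IsSimpleGroup S] [Finite S]
  [MulAction.IsPretransitive G X] [Good S G X]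

/-- the permutation of the factors induced by an automorphism -/
noncomputable def sg (α : MulAut (Wr S G X)) (x : X) : X :=
  (exists_factor (Good.cless G X) (Good.faith S) α x).choose

/-- the automorphisms of `S` induced by an automorphism -/
noncomputable def ph (α : MulAut (Wr S G X)) (x : X) : MulAut S :=
  (exists_factor (Good.cless G X) (Good.faith S) α x).choose_spec.choose

lemma spec (α : MulAut (Wr S G X)) (x : X) (s : S) : α (dl x s) = dl (sg α x) (ph α x s) :=
  (exists_factor (Good.cless G X) (Good.faith S) α x).choose_spec.choose_spec s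

lemma eq_of_spec {α : MulAut (Wr S G X)} {x y : X} {f : S → S}
    (h : ∀ s, α (dl x s) = dl y (f s)) : sg α x = y ∧ ∀ s, ph α x s = f s := by
  obtain ⟨s0, hs0⟩ := exists_ne (1 : S)
  have h1 : sg α x = y := by
    have h2 := h s0
    rw [spec] at h2
    refine (dl_eq_dl ?_ h2).1
    intro h3
    apply hs0
    exact (ph α x).injective (by rw [h3, map_one])
  refine ⟨h1, fun s => ?_⟩
  have h2 := h s
  rw [spec, h1] at h2
  exact dl_injective _ h2

lemma sg_mul (α β : MulAut (Wr S G X)) (x : X) : sg (α * β) x = sg α (sg β x) :=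
  (eq_of_spec (α := α * β) (f := fun s => ph α (sg β x) (ph β x s)) (fun s => by
    rw [MulAut.mul_apply, spec, spec])).1

lemma ph_mul (α β : MulAut (Wr S G X)) (x : X) : ph (α * β) x = ph α (sg β x) * ph β x := by
  ext s
  exact (eq_of_spec (α := α * β) (f := fun s => ph α (sg β x) (ph β x s)) (fun s => by
    rw [MulAut.mul_apply, spec, spec])).2 s

lemma sg_one (x : X) : sg (1 : MulAut (Wr S G X)) x = x :=
  (eq_of_spec (α := (1 : MulAut (Wr S G X))) (f := fun s => s) (fun _ => rfl)).1

lemma ph_one (x : X) : ph (1 : MulAut (Wr S G X)) x = 1 := by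
  ext s
  exact (eq_of_spec (α := (1 : MulAut (Wr S G X))) (f := fun s => s) (fun _ => rfl)).2 s

@[simp] lemma sg_inv_sg (α : MulAut (Wr S G X)) (x : X) : sg α⁻¹ (sg α x) = x := by
  rw [← sg_mul, inv_mul_cancel, sg_one]

@[simp] lemma sg_sg_inv (α : MulAut (Wr S G X)) (x : X) : sg α (sg α⁻¹ x) = x := by
  rw [← sg_mul, mul_inv_cancel, sg_one]

lemma sg_injective (α : MulAut (Wr S G X)) : Function.Injective (sg α) := by
  intro x y h
  rw [← sg_inv_sg α x, h, sg_inv_sg]

lemma sg_inv_of_id {α : MulAut (Wr S G X)} (h : ∀ x, sg α x = x) (x : X) : sg α⁻¹ x = x := by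
  have := sg_inv_sg α x
  rwa [h x] at this

lemma ph_inv_of_id {α : MulAut (Wr S G X)} (h : ∀ x, sg α x = x) (x : X) :
    ph α⁻¹ x = (ph α x)⁻¹ := by
  have h1 : ph (α⁻¹ * α) x = 1 := by rw [inv_mul_cancel, ph_one]
  rw [ph_mul, h x] at h1
  exact eq_inv_of_mul_eq_one_left h1

/-- an automorphism is determined by its action on the factors -/
lemma aut_ext {α β : MulAut (Wr S G X)} (h1 : ∀ x, sg α x = sg β x)
    (h2 : ∀ x, ph α x = ph β x) : α = β := by
  ext1 w
  have key : ∀ x s, α (dl x s) = β (dl x s) := by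
    intro x s
    rw [spec, spec, h1, h2]
  have h3 : β.symm (α w) = w := by
    have h4 : w⁻¹ * β.symm (α w) = 1 := by
      apply eq_one_of_comm (Good.cless G X) (Good.faith S)
      intro x s
      have h5 : β.symm (α w) * dl x s * (β.symm (α w))⁻¹ = w * dl x s * w⁻¹ := by
        have h6 : dl x s = β.symm (α (dl x s)) := by rw [key, MulEquiv.symm_apply_apply]
        conv_lhs => rw [h6]
        rw [← map_mul, ← map_mul, ← map_inv, ← map_inv, ← map_mul, ← map_mul, conj_dl, key,
          MulEquiv.symm_apply_apply, ← conj_dl]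
      calc w⁻¹ * β.symm (α w) * dl x s * (w⁻¹ * β.symm (α w))⁻¹
          = w⁻¹ * (β.symm (α w) * dl x s * (β.symm (α w))⁻¹) * w := by group
        _ = dl x s := by rw [h5]; group
    rw [inv_mul_eq_one] at h4
    exact h4.symm
  rw [← h3, MulEquiv.apply_symm_apply, h3]

section bar

variable [Nonempty X]

lemma g_apply (α : MulAut (Wr S G X)) (w : Wr S G X) : (α w).g = (α (inr w.g)).g := by
  have h := map_base (Good.cless G X) (Good.faith S) α
    (w * (inr w.g)⁻¹) (by simp)
  rw [map_mul, map_inv, mul_g, inv_g] at h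
  exact mul_inv_eq_one.mp h

/-- the automorphism induced on the acting group -/
noncomputable def bar : MulAut (Wr S G X) →* MulAut G where
  toFun α :=
    { toFun := fun g => (α (inr g)).g
      invFun := fun g => (α.symm (inr g)).g
      left_inv := fun g => by
        change (α.symm (inr (α (inr g)).g)).g = g
        rw [← g_apply α.symm, MulEquiv.symm_apply_apply]; rfl
      right_inv := fun g => by
        change (α (inr (α.symm (inr g)).g)).g = g
        rw [← g_apply α, MulEquiv.apply_symm_apply]; rfl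
      map_mul' := fun g h => by simp }
  map_one' := by ext g; rfl
  map_mul' α β := by
    ext g
    change (α (β (inr g))).g = (α (inr (β (inr g)).g)).g
    exact g_apply _ _

lemma bar_apply (α : MulAut (Wr S G X)) (g : G) : bar α g = (α (inr g)).g := rfl

lemma bar_g (α : MulAut (Wr S G X)) (w : Wr S G X) : (α w).g = bar α w.g := g_apply α w

lemma dl_smul (g : G) (x : X) (s : S) : (dl (g • x) s : Wr S G X) = inr g * dl x s * (inr g)⁻¹ := by
  rw [conj_dl]; simp

lemma smul_aux (α : MulAut (Wr S G X)) (g : G) (x : X) :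
    sg α (g • x) = bar α g • sg α x ∧ ∀ s, ph α (g • x) s =
      (α (inr g)).b (bar α g • sg α x) * ph α x s * ((α (inr g)).b (bar α g • sg α x))⁻¹ := by
  apply eq_of_spec (α := α) (f := fun s => (α (inr g)).b (bar α g • sg α x) * ph α x s *
    ((α (inr g)).b (bar α g • sg α x))⁻¹)
  intro s
  rw [dl_smul, map_mul, map_mul, map_inv, spec, conj_dl]
  rfl

lemma sg_smul (α : MulAut (Wr S G X)) (g : G) (x : X) : sg α (g • x) = bar α g • sg α x :=
  (smul_aux α g x).1

lemma ph_smul (α : MulAut (Wr S G X)) (g : G) (x : X) :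
    ph α (g • x) = MulAut.conj ((α (inr g)).b (bar α g • sg α x)) * ph α x := by
  ext s
  rw [(smul_aux α g x).2 s]
  simp

lemma ph_smul_ae (α : MulAut (Wr S G X)) (g : G) :
    {x | ph α (g • x) ≠ ph α x}.Finite := by
  have hfin : {x | (α (inr g)).b (bar α g • sg α x) ≠ 1}.Finite := by
    have h := (α (inr g)).fin
    refine (h.preimage (f := fun x => bar α g • sg α x) ?_)
    intro x _ y _ hxy
    exact sg_injective α (MulAction.injective (bar α g) hxy)
  refine hfin.subset ?_
  intro x hx h
  apply hx
  rw [ph_smul, h, map_one, one_mul]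

lemma sg_conj (w : Wr S G X) (x : X) : sg (MulAut.conj w) x = w.g • x :=
  (eq_of_spec (α := MulAut.conj w) (f := fun s => w.b (w.g • x) * s * (w.b (w.g • x))⁻¹)
    (fun s => by rw [MulAut.conj_apply, conj_dl])).1

lemma ph_conj (w : Wr S G X) (x : X) : ph (MulAut.conj w) x = MulAut.conj (w.b (w.g • x)) := by
  ext s
  exact (eq_of_spec (α := MulAut.conj w) (f := fun s => w.b (w.g • x) * s * (w.b (w.g • x))⁻¹)
    (fun s => by rw [MulAut.conj_apply, conj_dl])).2 s

lemma bar_conj (w : Wr S G X) : bar (MulAut.conj w) = MulAut.conj w.g := by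
  ext g
  rw [bar_apply, MulAut.conj_apply, MulAut.conj_apply]
  simp

/-- the inner criterion -/
theorem inner_of_ae [Infinite X] (α : MulAut (Wr S G X)) (h1 : ∀ x, sg α x = x)
    (h2 : {x | ph α x ≠ 1}.Finite) : ∃ w : Wr S G X, α = MulAut.conj w := by
  obtain ⟨x0, hx0⟩ : ∃ x0, ph α x0 = 1 := by
    by_contra h
    push Not at h
    have : {x | ph α x ≠ 1} = Set.univ := by ext x; simp [h x]
    rw [this] at h2
    exact Set.infinite_univ h2
  have h3 : ∀ x, ∃ c : S, ph α x = MulAut.conj c := by
    intro x
    obtain ⟨g, rfl⟩ := MulAction.exists_smul_eq G x0 x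
    exact ⟨_, by rw [ph_smul, hx0, mul_one]⟩
  choose c hc using h3
  have hfin : {x | c x ≠ 1}.Finite := by
    refine h2.subset ?_
    intro x hx h
    rw [hc] at h
    exact hx (conj_eq_one (Good.cless G X) h)
  refine ⟨inl c hfin, aut_ext ?_ ?_⟩
  · intro x
    rw [h1, sg_conj]; simp
  · intro x
    rw [ph_conj, hc]; simp

end bar

/-- lifting compatible automorphisms of the acting group -/
def lift (θ : MulAut G) (σ : Equiv.Perm X) (h : ∀ g x, σ (g • x) = θ g • σ x) :
    MulAut (Wr S G X) where
  toFun w := ⟨fun x => w.b (σ.symm x), θ w.g, by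
    refine (w.fin.preimage (f := σ.symm) ?_)
    exact σ.symm.injective.injOn⟩
  invFun w := ⟨fun x => w.b (σ x), θ.symm w.g, by
    refine (w.fin.preimage (f := σ) ?_)
    exact σ.injective.injOn⟩
  left_inv w := by
    refine ext' (fun x => ?_) ?_ <;> simp
  right_inv w := by
    refine ext' (fun x => ?_) ?_ <;> simp
  map_mul' u v := by
    refine ext' (fun x => ?_) ?_
    · have : σ.symm ((θ u.g)⁻¹ • x) = u.g⁻¹ • σ.symm x := by
        rw [Equiv.symm_apply_eq, h, map_inv]; simp
      simp [this]
    · simp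

end Wr

end Pool.Agent.W5h84.Rig
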