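import Pool.Agent.W5h84.Rig.Sg

/-!
# The rigid group above a given group
-/

set_option linter.unusedSectionVars false

namespace Pool.Agent.W5h84.Rig

open Wr

/-- Functions on `Q` that are almost invariant under left translations are almost constant. -/
def OneEnded (Q : Type) [Group Q] : Prop :=
  ∀ (C : Type) (_ : Finite C) (f : Q → C), (∀ q, {x | f (q * x) ≠ f x}.Finite) →
    ∃ c, {x | f x ≠ c}.Finite

/-- trivial centre, as a class -/
class CL (S : Type) [Group S] : Prop where
  cless : Centerless S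

section

variable (S Q : Type) [Group S] [Group Q] (P : Finset Q)

/-- the set `Q × (P → S)` -/
@[ext] structure Om where
  /-- first coordinate -/
  q : Q
  /-- second coordinate -/
  y : P → S

variable {S Q P}

instance : MulAction (Wr S Q Q) (Om S Q P) where
  smul w o := ⟨w.g * o.q, fun p => w.b (w.g * o.q * p) * o.y p⟩
  one_smul o := by
    refine Om.ext ?_ (funext fun p => ?_)
    · change (1 : Wr S Q Q).g * o.q = o.q
      simp
    · change (1 : Wr S Q Q).b ((1 : Wr S Q Q).g * o.q * p) * o.y p = o.y p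
      simp
  mul_smul u v o := by
    refine Om.ext ?_ (funext fun p => ?_)
    · change (u * v).g * o.q = u.g * (v.g * o.q)
      simp [mul_assoc]
    · change (u * v).b ((u * v).g * o.q * p) * o.y p =
        u.b (u.g * (v.g * o.q) * p) * (v.b (v.g * o.q * p) * o.y p)
      simp [mul_assoc]

lemma smul_q (w : Wr S Q Q) (o : Om S Q P) : (w • o).q = w.g * o.q := rfl
lemma smul_y (w : Wr S Q Q) (o : Om S Q P) (p : P) :
    (w • o).y p = w.b (w.g * o.q * p) * o.y p := rfl

instance goodQ [CL S] : Good S Q Q where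
  cless := CL.cless
  faith g h := by simpa using h 1

instance transQ : MulAction.IsPretransitive Q Q := ⟨fun x y => ⟨y * x⁻¹, by simp⟩⟩

open Classical in
instance transOm : MulAction.IsPretransitive (Wr S Q Q) (Om S Q P) := by
  have key : ∀ o : Om S Q P, ∃ g : Wr S Q Q, g • (⟨1, fun _ => 1⟩ : Om S Q P) = o := ?_
  · refine ⟨fun x y => ?_⟩
    obtain ⟨g, rfl⟩ := key x
    obtain ⟨h, rfl⟩ := key y
    exact ⟨h * g⁻¹, by simp [mul_smul]⟩
  intro o
  refine ⟨⟨fun z => if h : o.q⁻¹ * z ∈ P then o.y ⟨o.q⁻¹ * z, h⟩ else 1, o.q, ?_⟩, ?_⟩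
  · have : (Set.range fun p : P => o.q * p).Finite := Set.finite_range _
    refine this.subset ?_
    intro z hz
    by_cases h : o.q⁻¹ * z ∈ P
    · exact ⟨⟨_, h⟩, by simp⟩
    · exact absurd (dif_neg h) hz
  · refine Om.ext ?_ (funext fun p => ?_)
    · rw [smul_q]; simp
    · rw [smul_y]; simp

instance goodOm [CL S] [Nontrivial S] [hP : Fact ((1 : Q) ∈ P)] :
    Good S (Wr S Q Q) (Om S Q P) where
  cless := CL.cless
  faith w h := by
    have h1 : w.g = 1 := by
      have := congrArg Om.q (h ⟨1, fun _ => 1⟩)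
      simpa [smul_q] using this
    refine ext' (fun x => ?_) h1
    have := congrArg (fun o => Om.y o ⟨1, hP.out⟩) (h ⟨x, fun _ => 1⟩)
    simpa [smul_y, h1] using this

/-- the support of a point of `Om` -/
def supp (o : Om S Q P) : Set Q := {x : Q | ∃ s : S, (dl x s : Wr S Q Q) • o ≠ o}

lemma mem_supp [Nontrivial S] (o : Om S Q P) (x : Q) : x ∈ supp o ↔ ∃ p ∈ P, o.q * p = x := by
  constructor
  · rintro ⟨s, hs⟩
    by_contra hcon
    push Not at hcon
    apply hs
    refine Om.ext ?_ (funext fun p => ?_)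
    · rw [smul_q]; simp
    · rw [smul_y, dl_g, one_mul, dl_b_ne (hcon p p.2), one_mul]
  · rintro ⟨p, hp, rfl⟩
    obtain ⟨s, hs⟩ := exists_ne (1 : S)
    refine ⟨s, fun h => hs ?_⟩
    have := congrArg (fun o => Om.y o ⟨p, hp⟩) h
    simpa [smul_y] using this

end

section chain

lemma chain {A : Type} [Group A] (I : Subgroup A) [I.Normal] (H H' : Set A) {Z : Type}
    (inv : A → Z) (hfin : (inv '' H).Finite)
    (h : ∀ α ∈ H, ∀ β ∈ H, inv α = inv β → ∃ i ∈ I, i * (β⁻¹ * α) ∈ H')
    (hH' : ((fun a : A => (a : A ⧸ I)) '' H').Finite) :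
    ((fun a : A => (a : A ⧸ I)) '' H).Finite := by
  classical
  have hrep : ∀ z : Z, ∃ β : A, z ∈ inv '' H → (β ∈ H ∧ inv β = z) := by
    intro z
    by_cases hz : z ∈ inv '' H
    · obtain ⟨β, hβ, hβ2⟩ := hz
      exact ⟨β, fun _ => ⟨hβ, hβ2⟩⟩
    · exact ⟨1, fun h => absurd h hz⟩
  choose rep hrep using hrep
  have hU : (⋃ z ∈ inv '' H, (fun c : A ⧸ I => (rep z : A ⧸ I) * c) ''
      ((fun a : A => (a : A ⧸ I)) '' H')).Finite :=
    Set.Finite.biUnion hfin (fun z _ => hH'.image _)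
  refine hU.subset ?_
  rintro _ ⟨α, hα, rfl⟩
  have hz : inv α ∈ inv '' H := ⟨α, hα, rfl⟩
  obtain ⟨i, hi, hi2⟩ := h α hα (rep (inv α)) (hrep _ hz).1 (hrep _ hz).2.symm
  refine Set.mem_biUnion hz ⟨_, ⟨_, hi2, rfl⟩, ?_⟩
  have hi3 : (i : A ⧸ I) = 1 := (QuotientGroup.eq_one_iff i).mpr hi
  simp [hi3]

end chain

instance conj_normal (Γ : Type) [Group Γ] : (MulAut.conj (G := Γ)).range.Normal := by
  refine ⟨?_⟩
  rintro _ ⟨w, rfl⟩ β
  refine ⟨β w, ?_⟩
  ext x
  simp [MulAut.mul_apply]

section main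

variable {S Q : Type} [Group S] [Group Q] {P : Finset Q} [CL S] [IsSimpleGroup S] [Finite S]
  [hP : Fact ((1 : Q) ∈ P)] [Infinite Q]

instance : Nonempty (Om S Q P) := ⟨⟨1, fun _ => 1⟩⟩

instance : Infinite (Om S Q P) :=
  Infinite.of_injective (fun q : Q => (⟨q, fun _ => 1⟩ : Om S Q P)) (fun _ _ h => congrArg Om.q h)

lemma supp_sg (α : MulAut (Wr S (Wr S Q Q) (Om S Q P))) (o : Om S Q P) (x : Q) :
    x ∈ supp o ↔ sg (bar α) x ∈ supp (sg α o) := by
  have key : ∀ s, sg α ((dl x s : Wr S Q Q) • o) =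
      (dl (sg (bar α) x) (ph (bar α) x s) : Wr S Q Q) • sg α o := by
    intro s
    rw [sg_smul, spec]
  constructor
  · rintro ⟨s, hs⟩
    refine ⟨ph (bar α) x s, ?_⟩
    rw [← key]
    exact fun h => hs (sg_injective α h)
  · rintro ⟨t, ht⟩
    refine ⟨(ph (bar α) x).symm t, fun h => ht ?_⟩
    have := key ((ph (bar α) x).symm t)
    rw [h, MulEquiv.apply_symm_apply] at this
    exact this.symm

/-- the base point -/
def o0 : Om S Q P := ⟨1, fun _ => 1⟩

lemma mem_supp_o0 (x : Q) : x ∈ supp (o0 : Om S Q P) ↔ x ∈ P := by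
  rw [mem_supp]; simp [o0]

lemma ae_comb {C X : Type} (f : X → C) (c : C) (h : ∃ c, {x | f x ≠ c}.Finite)
    (hc : c = h.choose) : {x | f x ≠ c}.Finite := by
  rw [hc]; exact h.choose_spec

lemma step4 (α : MulAut (Wr S (Wr S Q Q) (Om S Q P))) (h1 : bar α = 1) (x : Q) :
    sg (bar α) x = x := by rw [h1, sg_one]

/-- The outer automorphism group is finite. -/
theorem out_finite (hgen : Subgroup.closure (P : Set Q) = ⊤) (hend : OneEnded Q) :
    Finite (MulAut (Wr S (Wr S Q Q) (Om S Q P)) ⧸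
      (MulAut.conj (G := Wr S (Wr S Q Q) (Om S Q P))).range) := by
  classical
  set Γ := Wr S (Wr S Q Q) (Om S Q P) with hΓ
  have hMS : Finite (MulAut S) := by
    have : Function.Injective (fun φ : MulAut S => (φ : S → S)) := DFunLike.coe_injective
    exact Finite.of_injective _ this
  -- the final step
  have h5 : ((fun a : MulAut Γ => (a : MulAut Γ ⧸ (MulAut.conj (G := Γ)).range)) ''
      {α | ∃ w, α = MulAut.conj w}).Finite := by
    refine (Set.finite_singleton (1 : MulAut Γ ⧸ (MulAut.conj (G := Γ)).range)).subset ?_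
    rintro _ ⟨_, ⟨w, rfl⟩, rfl⟩
    exact (QuotientGroup.eq_one_iff _).mpr ⟨w, rfl⟩
  -- step 5
  have h4 : ((fun a : MulAut Γ => (a : MulAut Γ ⧸ (MulAut.conj (G := Γ)).range)) ''
      {α | ∀ o, sg α o = o}).Finite := by
    have hae : ∀ (α : MulAut Γ) (y : P → S), (∀ o, sg α o = o) →
        ∃ c, {x : Q | ph α ⟨x, y⟩ ≠ c}.Finite := by
      intro α y hα
      apply hend (MulAut S) hMS (fun x => ph α ⟨x, y⟩)
      intro q
      have h := ph_smul_ae α (inr q : Wr S Q Q)
      have hinj : Function.Injective (fun x : Q => (⟨x, y⟩ : Om S Q P)) :=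
        fun a b h => congrArg Om.q h
      refine (h.preimage (f := fun x : Q => (⟨x, y⟩ : Om S Q P)) hinj.injOn).subset ?_
      intro x hx hx2
      apply hx
      rw [← hx2]
      congr 1
      refine Om.ext ?_ (funext fun p => ?_)
      · rw [smul_q]; simp
      · rw [smul_y]; simp
    refine chain _ _ _ (fun α : MulAut Γ => fun y : P → S =>
      if h : ∃ c, {x : Q | ph α ⟨x, y⟩ ≠ c}.Finite then h.choose else 1)
      (Set.toFinite _) ?_ h5
    intro α hα β hβ hαβ
    refine ⟨1, Subgroup.one_mem _, ?_⟩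
    rw [one_mul]
    have hsg : ∀ o, sg (β⁻¹ * α) o = o := by
      intro o
      rw [sg_mul, hα, sg_inv_of_id hβ]
    apply inner_of_ae _ hsg
    have hfin : (⋃ y : P → S, (fun x : Q => (⟨x, y⟩ : Om S Q P)) ''
        {x : Q | ph (β⁻¹ * α) ⟨x, y⟩ ≠ 1}).Finite := by
      apply Set.finite_iUnion
      intro y
      apply Set.Finite.image
      have e1 := hae α y hα
      have e2 := hae β y hβ
      have e3 := congrFun hαβ y
      simp only [dif_pos e1, dif_pos e2] at e3
      refine (e1.choose_spec.union e2.choose_spec).subset ?_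
      intro x hx
      by_contra hcon
      simp only [Set.mem_union, Set.mem_ofPred_eq, not_or, not_not] at hcon
      apply hx
      rw [ph_mul, hα, ph_inv_of_id hβ, hcon.1, hcon.2, e3, inv_mul_cancel]
    refine hfin.subset ?_
    rintro ⟨x, y⟩ hxy
    exact Set.mem_iUnion.mpr ⟨y, ⟨x, hxy, rfl⟩⟩
  -- step 4
  have h3 : ((fun a : MulAut Γ => (a : MulAut Γ ⧸ (MulAut.conj (G := Γ)).range)) ''
      {α | bar α = 1}).Finite := by
    refine chain _ _ _ (fun α : MulAut Γ => sg α o0) ?_ ?_ h4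
    · have hf : ((fun z : P × (P → S) => (⟨z.1, z.2⟩ : Om S Q P)) '' Set.univ).Finite :=
        Set.Finite.image _ (Set.toFinite _)
      refine hf.subset ?_
      rintro _ ⟨α, hα, rfl⟩
      have h1 : (sg α o0).q ∈ supp (sg α (o0 : Om S Q P)) := by
        rw [mem_supp]
        exact ⟨1, hP.out, by simp⟩
      have h2 : (sg α (o0 : Om S Q P)).q ∈ supp (o0 : Om S Q P) := by
        rw [supp_sg α]
        rwa [step4 α hα]
      rw [mem_supp_o0] at h2
      exact ⟨(⟨_, h2⟩, (sg α o0).y), trivial, rfl⟩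
    · intro α hα β hβ hαβ
      refine ⟨1, Subgroup.one_mem _, ?_⟩
      rw [one_mul]
      have hbar : bar (β⁻¹ * α) = 1 := by
        rw [map_mul, map_inv]
        rw [Set.mem_ofPred_eq] at hα hβ
        rw [hα, hβ]; simp
      intro o
      obtain ⟨w, rfl⟩ := MulAction.exists_smul_eq (Wr S Q Q) (o0 : Om S Q P) o
      rw [sg_smul, hbar, sg_mul]
      have : sg α (o0 : Om S Q P) = sg β o0 := hαβ
      rw [this, sg_inv_sg]
      rfl
  -- step 3
  have h2 : ((fun a : MulAut Γ => (a : MulAut Γ ⧸ (MulAut.conj (G := Γ)).range)) ''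
      {α | ∀ x, sg (bar α) x = x}).Finite := by
    have hae : ∀ (α : MulAut Γ), (∀ x, sg (bar α) x = x) →
        ∃ c, {x : Q | ph (bar α) x ≠ c}.Finite := by
      intro α hα
      apply hend (MulAut S) hMS (fun x => ph (bar α) x)
      intro q
      exact ph_smul_ae (bar α) q
    refine chain _ _ _ (fun α : MulAut Γ =>
      if h : ∃ c, {x : Q | ph (bar α) x ≠ c}.Finite then h.choose else 1)
      (Set.toFinite _) ?_ h3
    intro α hα β hβ hαβ
    have e1 := hae α hα
    have e2 := hae β hβ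
    have e3 := hαβ
    simp only [dif_pos e1, dif_pos e2] at e3
    have hsg : ∀ x, sg (bar (β⁻¹ * α)) x = x := by
      intro x
      rw [map_mul, map_inv, sg_mul, hα, sg_inv_of_id hβ]
    obtain ⟨w, hw⟩ := inner_of_ae (bar (β⁻¹ * α)) hsg (by
      refine (e1.choose_spec.union e2.choose_spec).subset ?_
      intro x hx
      by_contra hcon
      simp only [Set.mem_union, Set.mem_ofPred_eq, not_or, not_not] at hcon
      apply hx
      rw [map_mul, map_inv, ph_mul, hα, ph_inv_of_id hβ, hcon.1, hcon.2, e3, inv_mul_cancel])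
    refine ⟨(MulAut.conj (inr w))⁻¹, Subgroup.inv_mem _ ⟨_, rfl⟩, ?_⟩
    rw [Set.mem_ofPred_eq, map_mul, map_inv, bar_conj, inr_g, hw, inv_mul_cancel]
  -- step 2
  have h1 : ((fun a : MulAut Γ => (a : MulAut Γ ⧸ (MulAut.conj (G := Γ)).range)) ''
      {α | sg α o0 = o0}).Finite := by
    have hPP : ∀ (α : MulAut Γ), sg α (o0 : Om S Q P) = o0 → ∀ x ∈ P, sg (bar α) x ∈ P := by
      intro α hα x hx
      rw [← mem_supp_o0 (S := S) (P := P)] at hx
      rw [supp_sg α, hα, mem_supp_o0] at hx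
      exact hx
    refine chain _ _ _ (fun α : MulAut Γ => fun x : P => sg (bar α) (x : Q)) ?_ ?_ h2
    · have hf : {f : P → Q | ∀ i, f i ∈ (P : Set Q)}.Finite :=
        Set.Finite.pi' (fun _ => P.finite_toSet)
      refine hf.subset ?_
      rintro _ ⟨α, hα, rfl⟩ x
      exact hPP α hα x x.2
    · intro α hα β hβ hαβ
      refine ⟨1, Subgroup.one_mem _, ?_⟩
      rw [one_mul]
      have hfix : ∀ x ∈ P, sg (bar (β⁻¹ * α)) x = x := by
        intro x hx
        rw [map_mul, map_inv, sg_mul]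
        have : sg (bar α) x = sg (bar β) x := congrFun hαβ ⟨x, hx⟩
        rw [this, sg_inv_sg]
      have hone : sg (bar (β⁻¹ * α)) (1 : Q) = 1 := hfix 1 hP.out
      have hall : ∀ q : Q, sg (bar (β⁻¹ * α)) q = bar (bar (β⁻¹ * α)) q := by
        intro q
        have := sg_smul (bar (β⁻¹ * α)) q (1 : Q)
        rw [hone] at this
        simpa using this
      have hid : (bar (bar (β⁻¹ * α))).toMonoidHom = MonoidHom.id Q := by
        apply MonoidHom.eq_of_eqOn_dense hgen
        intro x hx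
        have := hall x
        rw [hfix x hx] at this
        exact this.symm
      intro x
      rw [hall]
      exact DFunLike.congr_fun hid x
  -- step 1
  have h0 : ((fun a : MulAut Γ => (a : MulAut Γ ⧸ (MulAut.conj (G := Γ)).range)) ''
      Set.univ).Finite := by
    refine chain _ _ _ (fun _ : MulAut Γ => ()) (Set.toFinite _) ?_ h1
    intro α _ β _ _
    obtain ⟨g, hg⟩ := MulAction.exists_smul_eq (Wr S Q Q) (sg (β⁻¹ * α) (o0 : Om S Q P)) o0
    refine ⟨MulAut.conj (inr g), ⟨_, rfl⟩, ?_⟩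
    rw [Set.mem_ofPred_eq, sg_mul, sg_conj, inr_g, hg]
  rw [Set.image_univ] at h0
  have hsurj : Set.range (fun a : MulAut Γ => (a : MulAut Γ ⧸ (MulAut.conj (G := Γ)).range)) =
      Set.univ := Set.range_eq_univ.mpr (QuotientGroup.mk_surjective)
  rw [hsurj] at h0
  exact Set.finite_univ_iff.mp h0

end main

end Pool.Agent.W5h84.Rig
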