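import Mathlib

/-!
# Restricted wreath products of a finite simple group by a permutation group

`Wr S G X` is the restricted wreath product of `S` by the group `G` acting on `X`.  For a
nonabelian finite simple group `S` and a faithful transitive infinite action we describe the
normal subgroups and the automorphisms.
-/

namespace Pool.Agent.W5h84.Rig

/-- The restricted wreath product `S wr_X G`: a finitely supported function `X → S` and an
element of `G`. -/
@[ext] structure Wr (S G X : Type) [Group S] [Group G] [MulAction G X] where
  /-- the base part -/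
  b : X → S
  /-- the acting part -/
  g : G
  /-- finiteness of the support -/
  fin : {x | b x ≠ 1}.Finite

namespace Wr

variable {S G X : Type} [Group S] [Group G] [MulAction G X]

instance : Mul (Wr S G X) where
  mul u v := ⟨fun x => u.b x * v.b (u.g⁻¹ • x), u.g * v.g, by
    have h2 : {x | v.b (u.g⁻¹ • x) ≠ 1}.Finite := by
      have := v.fin.image (fun x => u.g • x)
      refine this.subset ?_
      intro x hx
      exact ⟨u.g⁻¹ • x, hx, by simp⟩
    refine (u.fin.union h2).subset ?_
    intro x hx
    by_contra hcon
    simp only [Set.mem_union, Set.mem_ofPred_eq, not_or, not_not] at hcon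
    exact hx (by simp [hcon.1, hcon.2])⟩

instance : One (Wr S G X) where
  one := ⟨fun _ => 1, 1, by simp⟩

instance : Inv (Wr S G X) where
  inv u := ⟨fun x => (u.b (u.g • x))⁻¹, u.g⁻¹, by
    have := u.fin.image (fun x => u.g⁻¹ • x)
    refine this.subset ?_
    intro x hx
    refine ⟨u.g • x, ?_, by simp⟩
    intro h
    exact hx (by simp [h])⟩

@[simp] lemma mul_b (u v : Wr S G X) (x : X) : (u * v).b x = u.b x * v.b (u.g⁻¹ • x) := rfl
@[simp] lemma mul_g (u v : Wr S G X) : (u * v).g = u.g * v.g := rfl
@[simp] lemma one_b (x : X) : (1 : Wr S G X).b x = 1 := rfl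
@[simp] lemma one_g : (1 : Wr S G X).g = 1 := rfl
@[simp] lemma inv_b (u : Wr S G X) (x : X) : (u⁻¹).b x = (u.b (u.g • x))⁻¹ := rfl
@[simp] lemma inv_g (u : Wr S G X) : (u⁻¹).g = u.g⁻¹ := rfl

lemma ext' {u v : Wr S G X} (hb : ∀ x, u.b x = v.b x) (hg : u.g = v.g) : u = v :=
  Wr.ext (funext hb) hg

instance : Group (Wr S G X) :=
  Group.ofLeftAxioms
    (by
      intro u v w
      refine ext' (fun x => ?_) (by simp [mul_assoc])
      simp [mul_assoc, mul_smul])
    (by
      intro u
      exact ext' (fun x => by simp) (by simp))
    (by
      intro u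
      exact ext' (fun x => by simp) (by simp))

/-- the projection to the acting group -/
def proj : Wr S G X →* G where
  toFun := Wr.g
  map_one' := rfl
  map_mul' _ _ := rfl

@[simp] lemma proj_apply (u : Wr S G X) : proj u = u.g := rfl

/-- the embedding of the acting group -/
def inr : G →* Wr S G X where
  toFun g := ⟨fun _ => 1, g, by simp⟩
  map_one' := rfl
  map_mul' g h := by
    refine ext' (fun x => ?_) rfl
    simp

@[simp] lemma inr_b (g : G) (x : X) : (inr g : Wr S G X).b x = 1 := rfl
@[simp] lemma inr_g (g : G) : (inr g : Wr S G X).g = g := rfl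

lemma proj_surjective : Function.Surjective (proj : Wr S G X →* G) := fun g => ⟨inr g, rfl⟩

/-- the element of the base group with given function -/
def inl (f : X → S) (hf : {x | f x ≠ 1}.Finite) : Wr S G X := ⟨f, 1, hf⟩

@[simp] lemma inl_b (f : X → S) (hf : {x | f x ≠ 1}.Finite) (x : X) :
    (inl f hf : Wr S G X).b x = f x := rfl
@[simp] lemma inl_g (f : X → S) (hf : {x | f x ≠ 1}.Finite) :
    (inl f hf : Wr S G X).g = 1 := rfl

open Classical in
/-- the coordinate embedding of `S` at the point `x` -/
noncomputable def dl (x : X) : S →* Wr S G X where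
  toFun s := ⟨fun y => if y = x then s else 1, 1, by
    refine (Set.finite_singleton x).subset ?_
    intro y hy
    by_contra h
    exact hy (if_neg h)⟩
  map_one' := by
    refine ext' (fun y => ?_) rfl
    simp
  map_mul' s t := by
    refine ext' (fun y => ?_) (by simp)
    by_cases h : y = x <;> simp [h]

open Classical in
lemma dl_b (x : X) (s : S) (y : X) : (dl x s : Wr S G X).b y = if y = x then s else 1 := rfl
@[simp] lemma dl_b_self (x : X) (s : S) : (dl x s : Wr S G X).b x = s := by simp [dl_b]
lemma dl_b_ne {x y : X} (h : y ≠ x) (s : S) : (dl x s : Wr S G X).b y = 1 := by simp [dl_b, h]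
@[simp] lemma dl_g (x : X) (s : S) : (dl x s : Wr S G X).g = 1 := rfl

lemma dl_injective (x : X) : Function.Injective (dl x : S →* Wr S G X) := by
  intro s t h
  have := congrArg (fun u => Wr.b u x) h
  simpa using this

lemma dl_eq_dl {x y : X} {s t : S} (hs : s ≠ 1) (h : (dl x s : Wr S G X) = dl y t) :
    x = y ∧ s = t := by
  have h1 : x = y := by
    by_contra hne
    have := congrArg (fun u => Wr.b u x) h
    simp only [dl_b_self, dl_b_ne hne] at this
    exact hs this
  subst h1
  exact ⟨rfl, dl_injective x h⟩

/-- conjugation formula -/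
lemma conj_dl (w : Wr S G X) (x : X) (s : S) :
    w * dl x s * w⁻¹ = dl (w.g • x) (w.b (w.g • x) * s * (w.b (w.g • x))⁻¹) := by
  refine ext' (fun y => ?_) (by simp)
  by_cases h : y = w.g • x
  · subst h
    simp
  · have h2 : w.g⁻¹ • y ≠ x := by
      intro h3
      apply h
      rw [← h3]; simp
    simp [dl_b_ne h, dl_b_ne h2]

/-- every element of the base lies in a subgroup containing all coordinates -/
lemma base_mem {N : Subgroup (Wr S G X)} (hN : ∀ x s, (dl x s : Wr S G X) ∈ N)
    (w : Wr S G X) (hw : w.g = 1) : w ∈ N := by
  classical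
  have key : ∀ (T : Finset X) (w : Wr S G X), w.g = 1 → (∀ x, w.b x ≠ 1 → x ∈ T) → w ∈ N := by
    intro T
    induction T using Finset.induction_on with
    | empty =>
      intro w hw hT
      have : w = 1 := ext' (fun x => by
        by_contra h
        exact absurd (hT x h) (by simp)) hw
      rw [this]; exact N.one_mem
    | insert a T ha ih =>
      intro w hw hT
      have h1 : (dl a (w.b a))⁻¹ * w ∈ N := by
        apply ih
        · simp [hw]
        · intro x hx
          by_cases hxa : x = a
          · subst hxa
            simp at hx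
          · have : w.b x ≠ 1 := by
              intro h
              apply hx
              simp [h, dl_b_ne hxa]
            have h3 := hT x this
            rw [Finset.mem_insert] at h3
            exact h3.resolve_left hxa
      have h2 := N.mul_mem (hN a (w.b a)) h1
      simpa using h2
  exact key w.fin.toFinset w hw (fun x hx => by simpa using hx)

lemma eq_inl_mul_inr (w : Wr S G X) : w = inl w.b w.fin * inr w.g := by
  refine ext' (fun x => ?_) ?_ <;> simp

/-- the standing assumption on `S`: trivial centre -/
def Centerless (S : Type) [Group S] : Prop := ∀ s : S, (∀ t : S, s * t = t * s) → s = 1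

lemma conj_eq_one {S : Type} [Group S] (hc : Centerless S) {s : S}
    (h : MulAut.conj s = 1) : s = 1 := by
  apply hc
  intro t
  have : MulAut.conj s t = t := by rw [h]; rfl
  rw [MulAut.conj_apply] at this
  exact mul_inv_eq_iff_eq_mul.mp this

/-- The action is faithful. -/
def Faithful' (G X : Type) [Group G] [MulAction G X] : Prop := ∀ g : G, (∀ x : X, g • x = x) → g = 1

variable [Nontrivial S]

/-- the centraliser of the base is trivial -/
lemma eq_one_of_comm (hc : Centerless S) (hf : Faithful' G X) (w : Wr S G X)
    (h : ∀ x s, w * dl x s * w⁻¹ = dl x s) : w = 1 := by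
  obtain ⟨s0, hs0⟩ := exists_ne (1 : S)
  have h1 : ∀ x : X, w.g • x = x := by
    intro x
    have := h x s0
    rw [conj_dl] at this
    exact (dl_eq_dl hs0 this.symm).1.symm
  have h2 : w.g = 1 := hf _ h1
  refine ext' (fun x => ?_) h2
  apply hc
  intro t
  have := h x t
  rw [conj_dl, h1] at this
  have := dl_injective x this
  exact mul_inv_eq_iff_eq_mul.mp this

end Wr

end Pool.Agent.W5h84.Rig
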